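import Pool.Agent.Lib_helper35.SteinerGen3

/-!
# Infinite (t+1)-transitive groups with a block of imprimitivity on t-sets that is not a partition
-/

set_option autoImplicit false

namespace Pool.Agent.Results.MP_c0ccbe_al.SteinerBlocks

open Pool.Agent.SteinerGen

/-- points are on the left, colours on the right -/
def ty : ℕ ⊕ ℕ → Bool := Sum.isLeft

lemma fresh_ty : Fresh ty := by
  classical
  intro W
  obtain ⟨N, hN⟩ : ∃ N : ℕ, ∀ v ∈ W, (Sum.elim id id v : ℕ) < N := by
    refine ⟨W.sup (fun v => (Sum.elim id id v : ℕ)) + 1, ?_⟩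
    intro v hv
    exact Nat.lt_succ_of_le (Finset.le_sup (f := fun v => (Sum.elim id id v : ℕ)) hv)
  refine ⟨Sum.map (· + N) (· + N), ?_, ?_, ?_⟩
  · apply Function.Injective.sumMap
    · intro a b h; simpa using h
    · intro a b h; simpa using h
  · rintro (a | a) <;> rfl
  · rintro (a | a) h
    · have := hN _ h; simp at this
    · have := hN _ h; simp at this

/-- the hyperedge with point set `T` and colour `w` -/
def edge (T : Finset ℕ) (w : ℕ) : Finset (ℕ ⊕ ℕ) := insert (Sum.inr w) (T.image Sum.inl)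

lemma inr_notMem (T : Finset ℕ) (w : ℕ) : (Sum.inr w : ℕ ⊕ ℕ) ∉ T.image Sum.inl := by simp

lemma edge_card (T : Finset ℕ) (w : ℕ) : (edge T w).card = T.card + 1 := by
  unfold edge
  rw [Finset.card_insert_of_notMem (inr_notMem T w), Finset.card_image_of_injective _ Sum.inl_injective]

lemma np_image (T : Finset ℕ) : np ty (T.image Sum.inl) = T.card := by
  unfold np
  rw [Finset.filter_true_of_mem, Finset.card_image_of_injective _ Sum.inl_injective]
  intro v hv
  obtain ⟨n, _, rfl⟩ := Finset.mem_image.1 hv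
  rfl

lemma edge_np (T : Finset ℕ) (w : ℕ) : np ty (edge T w) = T.card := by
  unfold edge
  rw [np_insert (inr_notMem T w), np_image]
  simp [ty]

lemma inl_mem_edge {T : Finset ℕ} {w n : ℕ} : (Sum.inl n : ℕ ⊕ ℕ) ∈ edge T w ↔ n ∈ T := by
  simp [edge]

lemma inr_mem_edge {T : Finset ℕ} {w n : ℕ} : (Sum.inr n : ℕ ⊕ ℕ) ∈ edge T w ↔ n = w := by
  simp [edge]

lemma exists_edge {E : Finset (ℕ ⊕ ℕ)} {t : ℕ} (h1 : E.card = t + 1) (h2 : np ty E = t) :
    ∃ T w, E = edge T w ∧ T.card = t := by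
  classical
  -- colours of E
  have h3 : (E.filter (fun v => ty v = true)).card + (E.filter (fun v => ¬ ty v = true)).card
      = E.card := Finset.card_filter_add_card_filter_not _
  have h4 : (E.filter (fun v => ¬ ty v = true)).card = 1 := by
    unfold np at h2; omega
  obtain ⟨c, hc⟩ := Finset.card_eq_one.1 h4
  have hcE : c ∈ E ∧ ¬ ty c = true := by
    have : c ∈ E.filter (fun v => ¬ ty v = true) := by rw [hc]; exact Finset.mem_singleton_self _
    exact Finset.mem_filter.1 this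
  obtain ⟨w, rfl⟩ : ∃ w, c = Sum.inr w := by
    rcases c with a | a
    · exact absurd rfl hcE.2
    · exact ⟨a, rfl⟩
  have hE : E = edge (E.preimage Sum.inl Sum.inl_injective.injOn) w := by
    ext v
    rcases v with a | a
    · rw [inl_mem_edge, Finset.mem_preimage]
    · rw [inr_mem_edge]
      constructor
      · intro ha
        have : (Sum.inr a : ℕ ⊕ ℕ) ∈ E.filter (fun v => ¬ ty v = true) := by
          rw [Finset.mem_filter]; exact ⟨ha, by simp [ty]⟩
        rw [hc, Finset.mem_singleton] at this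
        exact Sum.inr_injective this
      · rintro rfl; exact hcE.1
  refine ⟨_, w, hE, ?_⟩
  have h5 := edge_card (E.preimage Sum.inl Sum.inl_injective.injOn) w
  rw [← hE] at h5
  omega

/-- the pairs of `(t+1)`-tuples of distinct points -/
abbrev Idx (t : ℕ) : Type := (Fin (t + 1) ↪ ℕ) × (Fin (t + 1) ↪ ℕ)

instance (t : ℕ) : Countable (Fin (t + 1) ↪ ℕ) :=
  Function.Injective.countable (f := fun x : Fin (t + 1) ↪ ℕ => (x : Fin (t + 1) → ℕ))
    DFunLike.coe_injective

/-- the finite map sending the first tuple to the second one -/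
def init (t : ℕ) (i : Idx t) : Finset ((ℕ ⊕ ℕ) × (ℕ ⊕ ℕ)) :=
  Finset.univ.image (fun k => (Sum.inl (i.1 k), Sum.inl (i.2 k)))

lemma isInit (t : ℕ) (i : Idx t) : IsInit ty t (init t i) := by
  refine ⟨?_, ?_, ?_, ?_, ?_⟩
  · intro p hp q hq hpq
    obtain ⟨k, _, rfl⟩ := Finset.mem_image.1 hp
    obtain ⟨l, _, rfl⟩ := Finset.mem_image.1 hq
    have := i.1.injective (Sum.inl_injective hpq)
    rw [this]
  · intro p hp q hq hpq
    obtain ⟨k, _, rfl⟩ := Finset.mem_image.1 hp
    obtain ⟨l, _, rfl⟩ := Finset.mem_image.1 hq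
    have := i.2.injective (Sum.inl_injective hpq)
    rw [this]
  · intro p hp
    obtain ⟨k, _, rfl⟩ := Finset.mem_image.1 hp
    rfl
  · intro p hp
    obtain ⟨k, _, rfl⟩ := Finset.mem_image.1 hp
    rfl
  · apply Finset.card_image_le.trans
    simp

/-- A type preserving permutation splits into two permutations. -/
lemma split_perm (e : Equiv.Perm (ℕ ⊕ ℕ)) (he : ∀ v, ty (e v) = ty v) :
    ∃ π ψ : Equiv.Perm ℕ, (∀ n, e (Sum.inl n) = Sum.inl (π n)) ∧
      ∀ n, e (Sum.inr n) = Sum.inr (ψ n) := by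
  have he' : ∀ v, ty (e.symm v) = ty v := by
    intro v
    have := he (e.symm v)
    rw [Equiv.apply_symm_apply] at this
    exact this.symm
  have hl : ∀ v : ℕ ⊕ ℕ, ty v = true → ∃ m, v = Sum.inl m := by
    rintro (a | a) h
    · exact ⟨a, rfl⟩
    · exact absurd h (by simp [ty])
  have hr : ∀ v : ℕ ⊕ ℕ, ty v = false → ∃ m, v = Sum.inr m := by
    rintro (a | a) h
    · exact absurd h (by simp [ty])
    · exact ⟨a, rfl⟩
  have a1 : ∀ n : ℕ, ∃ m, e (Sum.inl n) = Sum.inl m := fun n => hl _ (by rw [he]; rfl)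
  have a2 : ∀ n : ℕ, ∃ m, e.symm (Sum.inl n) = Sum.inl m := fun n => hl _ (by rw [he']; rfl)
  have a3 : ∀ n : ℕ, ∃ m, e (Sum.inr n) = Sum.inr m := fun n => hr _ (by rw [he]; rfl)
  have a4 : ∀ n : ℕ, ∃ m, e.symm (Sum.inr n) = Sum.inr m := fun n => hr _ (by rw [he']; rfl)
  choose p hp using a1
  choose p' hp' using a2
  choose q hq using a3
  choose q' hq' using a4
  refine ⟨⟨p, p', ?_, ?_⟩, ⟨q, q', ?_, ?_⟩, hp, hq⟩
  · intro n
    apply Sum.inl_injective (β := ℕ)
    rw [← hp', ← hp, Equiv.symm_apply_apply]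
  · intro n
    apply Sum.inl_injective (β := ℕ)
    rw [← hp, ← hp', Equiv.apply_symm_apply]
  · intro n
    apply Sum.inr_injective (α := ℕ)
    rw [← hq', ← hq, Equiv.symm_apply_apply]
  · intro n
    apply Sum.inr_injective (α := ℕ)
    rw [← hq, ← hq', Equiv.apply_symm_apply]

lemma exists_coloring (t : ℕ) (ht : 1 ≤ t) :
    ∃ C : Finset ℕ → ℕ → Prop,
      (∀ T w, C T w → T.card = t) ∧
      (∀ T w w', C T w → C T w' → w = w') ∧
      (∀ T T' w, C T w → C T' w → T ≠ T' → (T ∩ T').card + 2 ≤ t) ∧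
      (∀ T, T.card = t → ∃ w, C T w) ∧
      (∀ Y w, Y.card + 1 = t → ∃ T, Y ⊆ T ∧ C T w) ∧
      ∀ x y : Fin (t + 1) ↪ ℕ, ∃ π ψ : Equiv.Perm ℕ, (∀ k, π (x k) = y k) ∧
        ∀ T w, C T w ↔ C (T.image π) (ψ w) := by
  classical
  obtain ⟨Hinf, h1, h2, h3, h4⟩ := exists_limit (ty := ty) (t := t) (I := Idx t) (init := init t)
    fresh_ty ⟨Sum.inl 0, rfl⟩ ⟨Sum.inr 0, rfl⟩ (isInit t)
  refine ⟨fun T w => edge T w ∈ Hinf, ?_, ?_, ?_, ?_, ?_, ?_⟩
  · intro T w h
    have := (h1 _ h).2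
    rwa [edge_np] at this
  · intro T w w' h h'
    by_contra hne
    have hcard : T.card = t := by
      have := (h1 _ h).2
      rwa [edge_np] at this
    have hne' : edge T w ≠ edge T w' := by
      intro he
      have : (Sum.inr w : ℕ ⊕ ℕ) ∈ edge T w' := by rw [← he]; exact inr_mem_edge.2 rfl
      exact hne (inr_mem_edge.1 this)
    have h5 := h2 _ h _ h' hne'
    have h6 : T.image Sum.inl ⊆ edge T w ∩ edge T w' :=
      Finset.subset_inter (Finset.subset_insert _ _) (Finset.subset_insert _ _)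
    have h7 := Finset.card_le_card h6
    rw [Finset.card_image_of_injective _ Sum.inl_injective] at h7
    omega
  · intro T T' w h h' hne
    have hne' : edge T w ≠ edge T' w := by
      intro he
      apply hne
      ext n
      rw [← inl_mem_edge (w := w), he, inl_mem_edge]
    have h5 := h2 _ h _ h' hne'
    have h6 : edge (T ∩ T') w ⊆ edge T w ∩ edge T' w := by
      intro v hv
      rcases v with a | a
      · rw [inl_mem_edge, Finset.mem_inter] at hv
        rw [Finset.mem_inter, inl_mem_edge, inl_mem_edge]; exact hv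
      · rw [inr_mem_edge] at hv
        rw [Finset.mem_inter, inr_mem_edge, inr_mem_edge]; exact ⟨hv, hv⟩
    have h7 := Finset.card_le_card h6
    rw [edge_card] at h7
    omega
  · intro T hT
    obtain ⟨E, hE, hSE⟩ := h3 (T.image Sum.inl)
      (by rw [Finset.card_image_of_injective _ Sum.inl_injective, hT])
      (by rw [np_image, hT]; omega)
    obtain ⟨T', w, rfl, hT'⟩ := exists_edge (h1 E hE).1 (h1 E hE).2
    refine ⟨w, ?_⟩
    have h5 : T ⊆ T' := by
      intro n hn
      have := hSE (Finset.mem_image_of_mem Sum.inl hn)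
      exact inl_mem_edge.1 this
    rw [Finset.eq_of_subset_of_card_le h5 (by omega)]
    exact hE
  · intro Y w hY
    obtain ⟨E, hE, hSE⟩ := h3 (edge Y w) (by rw [edge_card, hY]) (by rw [edge_np]; omega)
    obtain ⟨T', w', rfl, hT'⟩ := exists_edge (h1 E hE).1 (h1 E hE).2
    have h5 : w = w' := inr_mem_edge.1 (hSE (inr_mem_edge.2 rfl))
    subst h5
    refine ⟨T', ?_, hE⟩
    intro n hn
    exact inl_mem_edge.1 (hSE (inl_mem_edge.2 hn))
  · intro x y
    obtain ⟨e, he1, he2, he3⟩ := h4 (x, y)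
    obtain ⟨π, ψ, hπ, hψ⟩ := split_perm e he1
    refine ⟨π, ψ, ?_, ?_⟩
    · intro k
      have := he3 (Sum.inl (x k), Sum.inl (y k)) (Finset.mem_image_of_mem _ (Finset.mem_univ k))
      simp only at this
      rw [hπ] at this
      exact Sum.inl_injective this
    · intro T w
      have h5 : (edge T w).image e = edge (T.image π) (ψ w) := by
        unfold edge
        rw [Finset.image_insert, hψ, Finset.image_image, Finset.image_image]
        congr 1
        apply Finset.image_congr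
        intro n _
        exact hπ n
      change edge T w ∈ Hinf ↔ edge (T.image π) (ψ w) ∈ Hinf
      rw [← h5]
      exact he2 _

open scoped Pointwise

/-- For every `t ≥ 3` there are a `(t+1)`-transitive group `G` of permutations of `ℕ` which is not
`t`-set primitive and a nontrivial block `S` of `G` on the `t`-subsets of `ℕ` which is (the set of
blocks of) a Steiner system `S(t-1,t,ℕ)`; in particular `S` is not a partition of `ℕ`. -/
theorem result (t : ℕ) (ht : 3 ≤ t) :
    ∃ G : Subgroup (Equiv.Perm ℕ),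
      MulAction.IsMultiplyPretransitive G ℕ (t + 1) ∧
      ¬ MulAction.IsPreprimitive G (Set.powersetCard ℕ t) ∧
      ∃ S : Set (Set.powersetCard ℕ t),
        MulAction.IsBlock G S ∧ S.Nontrivial ∧ S ≠ Set.univ ∧
        (∀ Y : Finset ℕ, Y.card = t - 1 →
          ∃! T : Set.powersetCard ℕ t, T ∈ S ∧ Y ⊆ (T : Finset ℕ)) ∧
        ¬ (∀ x : ℕ, ∃! T : Set.powersetCard ℕ t, T ∈ S ∧ x ∈ (T : Finset ℕ)) := by
  classical
  obtain ⟨C, c1, c2, c3, c4, c5, c6⟩ := exists_coloring t (by omega)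
  let G : Subgroup (Equiv.Perm ℕ) :=
    { carrier := {π | ∃ ψ : Equiv.Perm ℕ, ∀ T w, C T w ↔ C (T.image π) (ψ w)}
      one_mem' := ⟨1, fun T w => by simp⟩
      mul_mem' := by
        rintro π π' ⟨ψ, hψ⟩ ⟨ψ', hψ'⟩
        refine ⟨ψ * ψ', fun T w => ?_⟩
        rw [hψ' T w, hψ, Finset.image_image]
        rfl
      inv_mem' := by
        rintro π ⟨ψ, hψ⟩
        refine ⟨ψ⁻¹, fun T w => ?_⟩
        rw [hψ (T.image (π⁻¹ : Equiv.Perm ℕ)) ((ψ⁻¹ : Equiv.Perm ℕ) w), Finset.image_image]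
        have e1 : ((π : ℕ → ℕ) ∘ ((π⁻¹ : Equiv.Perm ℕ) : ℕ → ℕ)) = id := by
          funext n; simp
        rw [e1, Finset.image_id]
        simp }
  let S : ℕ → Set (Set.powersetCard ℕ t) := fun w => {T | C (T : Finset ℕ) w}
  have hmem : ∀ (T : Set.powersetCard ℕ t) (w : ℕ), T ∈ S w ↔ C (T : Finset ℕ) w :=
    fun T w => Iff.rfl
  -- translates of classes are classes
  have htr : ∀ (g : G) (w : ℕ), ∃ w', g • S w = S w' := by
    intro g w
    obtain ⟨ψ, hψ⟩ := g.2
    refine ⟨ψ w, ?_⟩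
    ext T
    rw [Set.mem_smul_set_iff_inv_smul_mem, hmem, hmem]
    change C (g⁻¹ • (T : Finset ℕ)) w ↔ C (T : Finset ℕ) (ψ w)
    rw [hψ]
    have : ((g⁻¹ • (T : Finset ℕ)).image (g : Equiv.Perm ℕ)) = (T : Finset ℕ) := by
      have h1 : ((g⁻¹ • (T : Finset ℕ)).image (g : Equiv.Perm ℕ)) = g • (g⁻¹ • (T : Finset ℕ)) := rfl
      rw [h1, smul_inv_smul]
    rw [this]
  have hblock : ∀ w, MulAction.IsBlock G (S w) := by
    intro w
    rw [MulAction.isBlock_iff_smul_eq_smul_of_nonempty]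
    intro g1 g2 hne
    obtain ⟨w1, h1⟩ := htr g1 w
    obtain ⟨w2, h2⟩ := htr g2 w
    rw [h1, h2] at hne ⊢
    obtain ⟨T, hT1, hT2⟩ := hne
    rw [c2 _ _ _ hT1 hT2]
  have hsteiner : ∀ Y : Finset ℕ, Y.card = t - 1 →
      ∃! T : Set.powersetCard ℕ t, T ∈ S 0 ∧ Y ⊆ (T : Finset ℕ) := by
    intro Y hY
    obtain ⟨T, hYT, hT⟩ := c5 Y 0 (by omega)
    refine ⟨⟨T, c1 T 0 hT⟩, ⟨hT, hYT⟩, ?_⟩
    rintro T' ⟨hT', hYT'⟩
    by_contra hne
    have hne' : T ≠ (T' : Finset ℕ) := by
      intro h; exact hne (Subtype.ext h.symm)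
    have h1 := c3 T T' 0 hT hT' hne'
    have h2 := Finset.card_le_card (Finset.subset_inter hYT hYT')
    omega
  -- two members of the class which meet
  obtain ⟨T1, -, hT1⟩ := c5 (Finset.range (t - 1)) 0 (by simp; omega)
  have hc1 : T1.card = t := c1 T1 0 hT1
  obtain ⟨b, hb⟩ : ∃ b, b ∉ T1 := Infinite.exists_notMem_finset T1
  obtain ⟨Z, hZT, hZc⟩ := Finset.exists_subset_card_eq (s := T1) (n := t - 2) (by omega)
  have hbZ : b ∉ Z := fun h => hb (hZT h)
  obtain ⟨T2, hYT2, hT2⟩ := c5 (insert b Z) 0 (by rw [Finset.card_insert_of_notMem hbZ]; omega)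
  have hc2 : T2.card = t := c1 T2 0 hT2
  have hne : T1 ≠ T2 := by
    intro h; apply hb; rw [h]; exact hYT2 (Finset.mem_insert_self _ _)
  obtain ⟨x, hxZ⟩ : Z.Nonempty := by
    rw [← Finset.card_pos]; omega
  have hx1 : x ∈ T1 := hZT hxZ
  have hx2 : x ∈ T2 := hYT2 (Finset.mem_insert_of_mem hxZ)
  have hnt : (S 0).Nontrivial := by
    refine ⟨⟨T1, hc1⟩, hT1, ⟨T2, hc2⟩, hT2, ?_⟩
    intro h; exact hne (congrArg Subtype.val h)
  have huniv : S 0 ≠ Set.univ := by
    intro h
    -- replace a point of T1 by b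
    have hc3 : (insert b (T1.erase x)).card = t := by
      rw [Finset.card_insert_of_notMem (fun h => hb (Finset.mem_of_mem_erase h)),
        Finset.card_erase_of_mem hx1]
      omega
    have h3 : (⟨insert b (T1.erase x), hc3⟩ : Set.powersetCard ℕ t) ∈ S 0 := by
      rw [h]; exact Set.mem_univ _
    have h4 := c3 T1 _ 0 hT1 h3 (by
      intro h5
      apply hb
      rw [h5]
      exact Finset.mem_insert_self _ _)
    have h6 : T1.erase x ⊆ T1 ∩ insert b (T1.erase x) :=
      Finset.subset_inter (Finset.erase_subset _ _) (Finset.subset_insert _ _)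
    have h7 := Finset.card_le_card h6
    rw [Finset.card_erase_of_mem hx1] at h7
    change (T1 ∩ insert b (T1.erase x)).card + 2 ≤ t at h4
    omega
  refine ⟨G, ?_, ?_, S 0, hblock 0, hnt, huniv, hsteiner, ?_⟩
  · rw [MulAction.isMultiplyPretransitive_iff]
    intro a a'
    obtain ⟨π, ψ, h1, h2⟩ := c6 a a'
    refine ⟨⟨π, ψ, h2⟩, ?_⟩
    ext k
    exact h1 k
  · intro hprim
    rcases hprim.isTrivialBlock_of_isBlock (hblock 0) with h | h
    · exact absurd h (Set.not_subsingleton_iff.2 hnt)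
    · exact huniv h
  · intro h
    obtain ⟨T, -, hTu⟩ := h x
    have e1 := hTu ⟨T1, hc1⟩ ⟨hT1, hx1⟩
    have e2 := hTu ⟨T2, hc2⟩ ⟨hT2, hx2⟩
    exact hne (congrArg Subtype.val (e1.trans e2.symm))

end Pool.Agent.Results.MP_c0ccbe_al.SteinerBlocks
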